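import Mathlib
import Pool.Agent.Q29.GoodMain
import Pool.Agent.TH456.TM.E

/-!
# Good scales for all polynomials in `e` and an arbitrary real number

Let `z = e`, and let `t` be an arbitrary real number, for instance one of the nine numbers of the problem. For
`t = π / e` the numbers `π + e`, `π - e`, `π e`, `π / e` are the values at `(z, t)` of the polynomials
`x (1 + y)`, `x (y - 1)`, `x ^ 2 y`, `y`.

If `1, P_1(z, t), …, P_s(z, t)` are linearly dependent over the rational numbers, the multiples of the vector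
`(P_1(z, t), …, P_s(z, t))` are not uniformly distributed modulo one; if they are independent, the multiples are uniformly
distributed by the theorem of Kronecker and Weyl, but nothing is known on the speed. We prove:

(2) For all `D`, `s`, `K`, `A` there is `κ > 0` such that for each `t` there are infinitely many scales `N` at which there
are only the true relations, for all polynomials of degree at most `D` in each variable and height at most
`N ^ κ` at once: the values which are not zero are at least `1 / N` in absolute value, and for all `P_1, …, P_s` such that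
`1, P_1(z, t), …, P_s(z, t)` are linearly independent over the rational numbers, the multiples of the vector
`(P_1(z, t), …, P_s(z, t))` by the integers up to `M`, by their `k`-th powers, `k ≤ K` (even with real polynomials of degree less
than `k` added), and by the primes up to `M` in each residue class modulo `d ≤ M ^ κ` are uniformly distributed modulo
one in the cubes of side `1 / q`, `q ≤ M ^ κ`, with an error `M ^ (1 - κ)`, for all `M` from `N` to `N ^ A`. If `z` and `t` satisfy
an algebraic relation of degree at most `D` this is the case for all large `N`.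

(1) At each scale `N ≥ N₀` (uniformly for `|t| ≤ T`) there is at most one exceptional curve: an irreducible polynomial `Q` in
two variables of positive degree in `y` such that the same is true if the true relations are replaced by the relations
modulo `Q`.

The proof: a small value `P(z, t)` gives a small value of an irreducible factor of `P`, of comparable height by
Kronecker's substitution and Mahler's measure (`Pool/Agent/Q29/FacHt.lean`); two different irreducible polynomials are not
both small (`Pool/Agent/TH456/TM/Near.lean`, by a measure of transcendence of `e`); if there were a small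
irreducible polynomial with a value different from zero at all large scales, all of them would be equal, and their value
would be zero. The distribution follows by an inverse theorem for the sums of Weyl and a form of the estimate of
Vinogradov for sums over primes from the starting files (`H373R2/NB`, `W110/HV`).
-/

set_option autoImplicit false

namespace Pool.Agent.Results.MP_a2f59b_nt.GoodScales

open Finset Polynomial

/-- the value `P(z, t)` of a polynomial in two variables; the inner variable `x` is `z`, the outer variable `y` is `t` -/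
noncomputable def val (z t : ℝ) (P : ℤ[X][X]) : ℝ := eval₂ (aeval z : ℤ[X] →ₐ[ℤ] ℝ).toRingHom t P

/-- the largest absolute value of a coefficient of a polynomial in two variables -/
noncomputable def height (P : ℤ[X][X]) : ℕ :=
  P.support.sup fun j => (P.coeff j).support.sup fun i => ((P.coeff j).coeff i).natAbs

/-- the integer polynomials in two variables of degree at most `D` in each variable and height at most `H` -/
def Poly (D : ℕ) (H : ℝ) : Set ℤ[X][X] :=
  {P | P.natDegree ≤ D ∧ (∀ j, (P.coeff j).natDegree ≤ D) ∧ (height P : ℝ) ≤ H}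

/-- the irreducible integer polynomials in two variables, of degree at most `D` in each variable, with a
positive leading coefficient -/
def Irr (D : ℕ) : Set ℤ[X][X] :=
  {P | Irreducible P ∧ P.natDegree ≤ D ∧ (∀ j, (P.coeff j).natDegree ≤ D) ∧
    0 < P.leadingCoeff.leadingCoeff}

/-- The points `y n ∈ ℝ ^ s`, `n ∈ S`, are uniformly distributed modulo one with error `E` in the cubes of side `1 / q`,
`q ≤ Q`. -/
def Equi {s : ℕ} (S : Finset ℕ) (y : ℕ → Fin s → ℝ) (Q E : ℝ) : Prop :=
  ∀ q : ℕ, 1 ≤ q → (q : ℝ) ≤ Q → ∀ ρ : Fin s → ℤ, (∀ j, 0 ≤ ρ j ∧ ρ j < q) →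
    |((S.filter fun n => ∀ j, (ρ j : ℝ) / q ≤ Int.fract (y n j) ∧ Int.fract (y n j) < (ρ j + 1) / q).card : ℝ) -
      S.card / (q : ℝ) ^ s| ≤ E

/-- The multiples of the vector `x` are uniformly distributed modulo one at the scale `M`, with a power saving, along all
polynomials of degree `k ≤ K` (the points `x n ^ k + R(n)`, `0 ≤ n < M`, `R` a vector of real polynomials of degree less
than `k`), and along the primes in all residue classes modulo `d ≤ M ^ κ` (the points `x p + β`, `p ≤ M` prime,
`p ≡ r (mod d)`). -/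
def Joint (κ : ℝ) (K M : ℕ) {s : ℕ} (x : Fin s → ℝ) : Prop :=
  (∀ k : ℕ, 1 ≤ k → k ≤ K → ∀ R : Fin s → ℝ[X], (∀ j, (R j).degree < k) →
    Equi (range M) (fun n j => x j * (n : ℝ) ^ k + (R j).eval (n : ℝ)) ((M : ℝ) ^ κ) ((M : ℝ) ^ (1 - κ))) ∧
  (∀ d r : ℕ, 1 ≤ d → (d : ℝ) ≤ (M : ℝ) ^ κ → ∀ β : Fin s → ℝ,
    Equi ((range (M + 1)).filter fun p => p.Prime ∧ p ≡ r [MOD d]) (fun p j => x j * p + β j) ((M : ℝ) ^ κ)
      ((M : ℝ) ^ (1 - κ)))

/-- **Good scales**, see the text at the beginning of the file. -/
theorem result (D s K : ℕ) (A : ℝ) (hD : 1 ≤ D) (hs : 1 ≤ s) (hA : 1 ≤ A) : ∃ κ : ℝ, 0 < κ ∧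
      (∀ T : ℝ, ∃ N₀ : ℕ, ∀ N : ℕ, N₀ ≤ N → ∀ t : ℝ, |t| ≤ T → ∃ Q ∈ Irr D, 0 < Q.natDegree ∧
        (∀ P ∈ Poly D ((N : ℝ) ^ κ), ¬ Q ∣ P → 1 / (N : ℝ) ≤ |val (Real.exp 1) t P|) ∧
        (∀ P : Fin s → ℤ[X][X], (∀ i, P i ∈ Poly D ((N : ℝ) ^ κ)) →
          (∀ l : Fin s → ℤ, l ≠ 0 → ∀ a : ℤ, ¬ Q ∣ (∑ i, l i • P i) - C (C a)) →
          ∀ M : ℕ, N ≤ M → (M : ℝ) ≤ (N : ℝ) ^ A → Joint κ K M (fun i => val (Real.exp 1) t (P i)))) ∧
      ∀ t : ℝ, ∃ G : Set ℕ,
        (∀ N ∈ G,
          (∀ P ∈ Poly D ((N : ℝ) ^ κ), val (Real.exp 1) t P ≠ 0 → 1 / (N : ℝ) ≤ |val (Real.exp 1) t P|) ∧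
          (∀ P : Fin s → ℤ[X][X], (∀ i, P i ∈ Poly D ((N : ℝ) ^ κ)) →
            (∀ l : Fin s → ℤ, l ≠ 0 → ∀ a : ℤ, ∑ i, (l i : ℝ) * val (Real.exp 1) t (P i) ≠ a) →
            ∀ M : ℕ, N ≤ M → (M : ℝ) ≤ (N : ℝ) ^ A → Joint κ K M (fun i => val (Real.exp 1) t (P i)))) ∧
        G.Infinite ∧
        ((∃ Q ∈ Irr D, val (Real.exp 1) t Q = 0) → ∃ N₁ : ℕ, ∀ N : ℕ, N₁ ≤ N → N ∈ G) := by
  obtain ⟨κ, hκ, h1, h2⟩ := Pool.Agent.Q29.Eqd.good_main _ Pool.Agent.TH456.TM.measT_e D hD s hs K A hA
  refine ⟨κ, hκ, ?_, ?_⟩
  · intro T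
    obtain ⟨N₀, hN₀⟩ := h1 T
    refine ⟨N₀, fun N hN t ht => ?_⟩
    obtain ⟨Q, hQ, hQ0, h3, h4⟩ := hN₀ N hN t ht
    exact ⟨Q, hQ, hQ0, fun P hP => h3 P hP.1 hP.2.1 hP.2.2,
      fun P hP => h4 P (fun i => (hP i).1) (fun i => (hP i).2.1) (fun i => (hP i).2.2)⟩
  · intro t
    obtain ⟨G, h3, h4, h5⟩ := h2 t
    refine ⟨G, fun N hN => ⟨fun P hP => (h3 N hN).1 P hP.1 hP.2.1 hP.2.2,
      fun P hP => (h3 N hN).2 P (fun i => (hP i).1) (fun i => (hP i).2.1) (fun i => (hP i).2.2)⟩, ?_, h5⟩
    rw [Set.infinite_iff_exists_gt]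
    intro n
    obtain ⟨N, hN, hn⟩ := h4 (n + 1)
    exact ⟨N, hN, by omega⟩

end Pool.Agent.Results.MP_a2f59b_nt.GoodScales
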