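import Pool.Agent.Q23.MV.Pack

/-!
# The numbers `y`, `e^(λ M)`, `x^(λ M)`, `y^(λ M)`, `M = x^i y^j`, for `x = e^q`, `y = π r`, `q` and `r` independent

At `q = r = 1` all nine numbers of the question are values of these functions: `π ± e`, `π e`, `π / e` are `y ± x`, `y x`,
`y / x`, and `π^π = y^y`, `e^e = x^x`, `π^e = y^x`, `π^√2 = y^√2` (`λ = √2`, `M = 1`), `e^(π²) = e^(y²)` (`M = y²`). We show
that for pairs `(q, r)` of algebraic numbers of bounded degree and height at most `T`, outside few curves of bounded degree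
(at most `C T^ε` curves), all these numbers satisfy no polynomial relation of bounded degree and of height at most `T^A`;
for the numbers other than `y` also relative to arbitrary constants.
-/

set_option autoImplicit false

open Set Filter Topology NumberField

namespace Pool.Agent.Results.MP_a2f59b_nt.JointFamilies

/-- For every compact subset `L` of `U` and all `m`, `g`, `d`, `A` and `ε > 0` there are `D`, `C`, `T₀` such that for every
number field `F` of degree at most `m`, every embedding `ι` of `F` in `ℂ`, all complex numbers `ξ_1, …, ξ_g` and all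
`T ≥ T₀` there are at most `C T^ε` hypersurfaces `Q = 0` of degree at most `D` with the following property. If `x` is a
point with coordinates in `F` outside these hypersurfaces, with image in `L`, whose coordinates are quotients of two
integers of `F` all of whose conjugates have absolute value at most `T`, then no nonzero polynomial `P` of degree at most
`d` in each variable, with coefficients of the form `∑ ξ_a ι(c_a)`, where the `c_a` are integers of `F` all of whose
conjugates have absolute value at most `T ^ A`, vanishes at the numbers `f y (ι x)`. -/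
def FewRelations {X κ : Type} [Fintype X] (U : Set (X → ℂ)) (f : κ → (X → ℂ) → ℂ) : Prop :=
  ∀ L : Set (X → ℂ), IsCompact L → L ⊆ U → ∀ (m g d : ℕ) (A ε : ℝ), 0 < ε →
    ∃ (D : ℕ) (C T₀ : ℝ), ∀ (F : Type) [Field F] [NumberField F], Module.finrank ℚ F ≤ m → ∀ (ι : F →+* ℂ)
      (ξ : Fin g → ℂ) (T : ℝ), T₀ ≤ T → ∃ Φ : Finset (MvPolynomial X ℂ), (Φ.card : ℝ) ≤ C * T ^ ε ∧
        (∀ Q ∈ Φ, Q ≠ 0 ∧ Q.totalDegree ≤ D) ∧
        ∀ x : X → F, (fun j => ι (x j)) ∈ L →
          (∀ j, ∃ a b : 𝓞 F, b ≠ 0 ∧ (∀ φ : F →+* ℂ, ‖φ a‖ ≤ T ∧ ‖φ b‖ ≤ T) ∧ x j = a / b) →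
          (∀ Q ∈ Φ, MvPolynomial.eval (fun j => ι (x j)) Q ≠ 0) →
          ∀ P : MvPolynomial κ ℂ, P ≠ 0 → (∀ y, P.degreeOf y ≤ d) →
            (∀ s, ∃ c : Fin g → 𝓞 F, (∀ a (φ : F →+* ℂ), ‖φ (c a)‖ ≤ T ^ A) ∧ P.coeff s = ∑ a, ξ a * ι (c a)) →
            MvPolynomial.aeval (fun y => f y (fun j => ι (x j))) P ≠ 0

/-- The same for the numbers `θ ι(x_j)` and `f y (ι x)` together, and for polynomials whose coefficients are integers of `F`
all of whose conjugates have absolute value at most `T ^ A`. -/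
def FewRelationsWith {X κ : Type} [Fintype X] (U : Set (X → ℂ)) (θ : ℂ) (j : X) (f : κ → (X → ℂ) → ℂ) : Prop :=
  ∀ L : Set (X → ℂ), IsCompact L → L ⊆ U → ∀ (m d : ℕ) (A ε : ℝ), 0 < ε →
    ∃ (D : ℕ) (C T₀ : ℝ), ∀ (F : Type) [Field F] [NumberField F], Module.finrank ℚ F ≤ m → ∀ (ι : F →+* ℂ)
      (T : ℝ), T₀ ≤ T → ∃ Φ : Finset (MvPolynomial X ℂ), (Φ.card : ℝ) ≤ C * T ^ ε ∧
        (∀ Q ∈ Φ, Q ≠ 0 ∧ Q.totalDegree ≤ D) ∧
        ∀ x : X → F, (fun j => ι (x j)) ∈ L →
          (∀ j, ∃ a b : 𝓞 F, b ≠ 0 ∧ (∀ φ : F →+* ℂ, ‖φ a‖ ≤ T ∧ ‖φ b‖ ≤ T) ∧ x j = a / b) →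
          (∀ Q ∈ Φ, MvPolynomial.eval (fun j => ι (x j)) Q ≠ 0) →
          ∀ P : MvPolynomial (Option κ) (𝓞 F), P ≠ 0 → (∀ y, P.degreeOf y ≤ d) →
            (∀ s (φ : F →+* ℂ), ‖φ ((P.coeff s : 𝓞 F) : F)‖ ≤ T ^ A) →
            MvPolynomial.eval₂ (ι.comp (algebraMap (𝓞 F) F))
              (fun o => o.elim (θ * ι (x j)) fun y => f y (fun j => ι (x j))) P ≠ 0

/-- All indices `(k, i, j, b)`: the multiplier `λ_k`, the monomial `M = x^i y^j`, the base `b` (`0` for `e`, `1` for `x`,
`2` for `y`). -/
abbrev Full (n N : ℕ) : Type := Fin (n + 1) × (Fin (N + 1) × (Fin (N + 1) × Fin 3))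

/-- The indices of `e^(λ_k)` and of `y^(λ_0) = y`. -/
def Bad {n N : ℕ} (y : Full n N) : Prop :=
  y.2.1 = 0 ∧ y.2.2.1 = 0 ∧ (y.2.2.2 = 0 ∨ (y.2.2.2 = 2 ∧ y.1 = 0))

/-- The indices which are considered. -/
abbrev Idx (n N : ℕ) : Type := {y : Full n N // ¬ Bad y}

/-- The numbers `e^(λ_k M)`, `x^(λ_k M)`, `y^(λ_k M)`, `M = x^i y^j`, for `x = e^(z_0)`, `y = π z_1`, where `log x = z_0` and
`log y` is the principal logarithm of `π z_1`. -/
noncomputable def fn {n : ℕ} (lam : Fin (n + 1) → ℝ) (N : ℕ) (y : Idx n N) (z : Fin 2 → ℂ) : ℂ :=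
  Complex.exp (lam y.1.1 * (Complex.exp (z 0) ^ (y.1.2.1 : ℕ) * (Real.pi * z 1) ^ (y.1.2.2.1 : ℕ) *
    ![1, z 0, Complex.log (Real.pi * z 1)] y.1.2.2.2))

/-- The domain: `z_1` is not on the negative real axis. -/
def dom : Set (Fin 2 → ℂ) := {z | z 1 ∈ Complex.slitPlane}

/-- weights -/
noncomputable def w (b : Fin 3) (a a' : Fin 2) : ℝ :=
  if b = 0 then (if a = 0 ∧ a' = 0 then 1 else 0) else
    if b = 1 then (if a = 1 ∧ a' = 0 then 1 else 0) else (if a = 0 then (if a' = 0 then Real.log Real.pi else 1) else 0)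

/-- coefficients -/
noncomputable def cc {n : ℕ} (lam : Fin (n + 1) → ℝ) (N : ℕ) (y : Full n N)
    (l : Fin (N + 1) × (Fin (N + 1) × (Fin 2 × Fin 2))) : ℝ :=
  if y.2.1 = l.1 ∧ y.2.2.1 = l.2.1 then lam y.1 * (Real.pi ^ (l.2.1 : ℕ) * w y.2.2.2 l.2.2.1 l.2.2.2) else 0

theorem lin {n : ℕ} (lam : Fin (n + 1) → ℝ) (hlam : LinearIndependent ℚ lam) (h0 : lam 0 = 1)
    (m : Fin (n + 1) → ℤ) (r : ℤ) (h : ∑ k, (m k : ℝ) * lam k = r) : m 0 = r ∧ ∀ k, k ≠ 0 → m k = 0 := by
  classical
  have h1 := (Fintype.linearIndependent_iff.1 hlam) (fun k => ((m k - if k = 0 then r else 0 : ℤ) : ℚ)) (by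
    have h2 : ∀ k, ((m k - if k = 0 then r else 0 : ℤ) : ℚ) • lam k =
        (m k : ℝ) * lam k - if k = 0 then (r : ℝ) * lam k else 0 := by
      intro k
      rw [Rat.smul_def]
      by_cases hk : k = 0
      · rw [if_pos hk, if_pos hk]
        push_cast
        ring
      · rw [if_neg hk, if_neg hk]
        push_cast
        ring
    rw [Finset.sum_congr rfl fun k _ => h2 k, Finset.sum_sub_distrib, h, Finset.sum_ite_eq' Finset.univ 0,
      if_pos (Finset.mem_univ _), h0, mul_one, sub_self])
  refine ⟨?_, fun k hk => ?_⟩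
  · have h3 := h1 0
    rw [if_pos rfl] at h3
    have h4 : m 0 - r = 0 := by exact_mod_cast h3
    omega
  · have h3 := h1 k
    rw [if_neg hk, sub_zero] at h3
    exact_mod_cast h3

theorem main {n : ℕ} (lam : Fin (n + 1) → ℝ) (hlam : LinearIndependent ℚ lam) (h0 : lam 0 = 1) (N : ℕ) :
    FewRelations dom (fn lam N) := by
  classical
  intro L hL hLU m g d A ε hε
  have hpi := Real.pi_pos
  let σ : Type := Fin (N + 1) × (Fin (N + 1) × (Fin 2 × Fin 2))
  let α : σ → Fin 2 → ℝ := fun l => ![((l.1 : ℕ) : ℝ), 0]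
  let k : σ → Fin 2 → ℕ := fun l => ![(l.2.2.1 : ℕ), (l.2.1 : ℕ)]
  let i : σ → Fin 2 → ℕ := fun l => ![0, (l.2.2.2 : ℕ)]
  have hα0 : ∀ l : σ, α l = 0 ↔ l.1 = 0 := by
    intro l
    constructor
    · intro h
      have h1 := congrFun h 0
      simp only [α, Matrix.cons_val_zero, Pi.zero_apply, Nat.cast_eq_zero] at h1
      exact Fin.ext h1
    · intro h
      funext j
      fin_cases j
      · simp [α, h]
      · simp [α]
  have hk0 : ∀ l : σ, k l = 0 ↔ l.2.2.1 = 0 ∧ l.2.1 = 0 := by
    intro l
    constructor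
    · intro h
      have h1 := congrFun h 0
      have h2 := congrFun h 1
      simp only [k, Matrix.cons_val_zero, Matrix.cons_val_one, Pi.zero_apply] at h1 h2
      exact ⟨Fin.ext h1, Fin.ext h2⟩
    · intro h
      funext j
      fin_cases j
      · simp [k, h.1]
      · simp [k, h.2]
  have H := Q23.MV.mvFewEL (X := Fin 2) (κ := Idx n N) (σ := σ) α k i (by
      rintro ⟨a, b, c, e⟩ ⟨a', b', c', e'⟩ h
      simp only [Prod.mk.injEq, α, k, i] at h
      have h1 := congrFun h.1 0
      have h2 := congrFun h.2.1 0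
      have h3 := congrFun h.2.1 1
      have h4 := congrFun h.2.2 1
      simp only [Matrix.cons_val_zero, Matrix.cons_val_one, Nat.cast_inj] at h1 h2 h3 h4
      rw [Fin.ext h1, Fin.ext h2, Fin.ext h3, Fin.ext h4])
    (by
      intro l j
      fin_cases j
      · simp [α]
      · simp [α]) (fun y l => cc lam N y.1 l) (by
      intro μ r h1 h2
      -- extension by zero
      let μ' : Full n N → ℤ := fun y => if h : ¬ Bad y then μ ⟨y, h⟩ else 0
      have hμ' : ∀ y : Idx n N, μ' y.1 = μ y := fun y => dif_pos y.2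
      have hbad : ∀ y, Bad y → μ' y = 0 := fun y hy => dif_neg (not_not.2 hy)
      let S : Fin (N + 1) → Fin (N + 1) → Fin 3 → ℝ := fun a b c => ∑ k, (μ' (k, a, b, c) : ℝ) * lam k
      have hsum : ∀ l : σ, ∑ y : Idx n N, (μ y : ℝ) * cc lam N y.1 l =
          Real.pi ^ (l.2.1 : ℕ) * ∑ c, w c l.2.2.1 l.2.2.2 * S l.1 l.2.1 c := by
        intro l
        have h3 : ∑ y : Idx n N, (μ y : ℝ) * cc lam N y.1 l = ∑ y : Full n N, (μ' y : ℝ) * cc lam N y l := by
          rw [← Fintype.sum_subtype_add_sum_subtype (fun y : Full n N => Bad y) fun y => (μ' y : ℝ) * cc lam N y l,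
            Finset.sum_eq_zero (s := (Finset.univ : Finset {y : Full n N // Bad y})) (fun y _ => by
              rw [hbad y.1 y.2, Int.cast_zero, zero_mul]), zero_add]
          exact Finset.sum_congr rfl fun y _ => by rw [hμ']
        rw [h3, Fintype.sum_prod_type]
        have h4 : ∀ q : Fin (n + 1), ∑ y : Fin (N + 1) × (Fin (N + 1) × Fin 3), (μ' (q, y) : ℝ) * cc lam N (q, y) l =
            ∑ c : Fin 3, (μ' (q, l.1, l.2.1, c) : ℝ) * (lam q * (Real.pi ^ (l.2.1 : ℕ) * w c l.2.2.1 l.2.2.2)) := by
          intro q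
          rw [Fintype.sum_prod_type, Finset.sum_eq_single l.1]
          · rw [Fintype.sum_prod_type, Finset.sum_eq_single l.2.1]
            · refine Finset.sum_congr rfl fun c _ => ?_
              rw [cc, if_pos ⟨rfl, rfl⟩]
            · intro b _ hb
              refine Finset.sum_eq_zero fun c _ => ?_
              rw [cc, if_neg (fun h5 => hb h5.2), mul_zero]
            · intro h5
              exact absurd (Finset.mem_univ _) h5
          · intro b _ hb
            refine Finset.sum_eq_zero fun c _ => ?_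
            rw [cc, if_neg (fun h5 => hb h5.1), mul_zero]
          · intro h5
            exact absurd (Finset.mem_univ _) h5
        rw [Finset.sum_congr rfl fun q _ => h4 q, Finset.sum_comm, Finset.mul_sum]
        refine Finset.sum_congr rfl fun c _ => ?_
        simp only [S, Finset.mul_sum]
        refine Finset.sum_congr rfl fun q _ => ?_
        ring
      have hv : ∀ (a b : Fin (N + 1)) (e e' : Fin 2), (a ≠ 0 ∨ e ≠ 0 ∨ b ≠ 0) → ∑ c, w c e e' * S a b c = 0 := by
        intro a b e e' hne
        have h3 := h1 (a, b, e, e') (by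
          by_contra hcon
          push Not at hcon
          have h4 := (hα0 _).1 hcon.1
          have h5 := (hk0 _).1 hcon.2
          simp only at h4 h5
          rcases hne with h6 | h6 | h6
          · exact h6 h4
          · exact h6 h5.1
          · exact h6 h5.2)
        rw [hsum] at h3
        exact (mul_eq_zero.1 h3).resolve_left (pow_ne_zero _ hpi.ne')
      have hone : ∀ a b, S a b 1 = 0 := by
        intro a b
        have h3 := hv a b 1 0 (Or.inr (Or.inl one_ne_zero))
        rw [Fin.sum_univ_three] at h3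
        simpa [w] using h3
      have htwo : ∀ a b, (a ≠ 0 ∨ b ≠ 0) → S a b 2 = 0 ∧ S a b 0 = 0 := by
        intro a b hne
        have h3 := hv a b 0 1 (by tauto)
        rw [Fin.sum_univ_three] at h3
        have h4 : S a b 2 = 0 := by simpa [w] using h3
        have h5 := hv a b 0 0 (by tauto)
        rw [Fin.sum_univ_three, h4] at h5
        exact ⟨h4, by simpa [w] using h5⟩
      have hlast : S 0 0 2 = r := by
        have h3 := h2 1 le_rfl
        rw [if_pos rfl, Finset.sum_eq_single ((0, 0, 0, 1) : σ)] at h3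
        · rw [hsum, Fin.sum_univ_three] at h3
          simpa [w] using h3
        · rintro ⟨a, b, e, e'⟩ hl hne
          rw [Finset.mem_filter] at hl
          obtain ⟨-, ⟨h4, h5⟩, h6⟩ := hl
          have h7 := (hα0 _).1 h4
          have h8 := (hk0 _).1 h5
          simp only at h7 h8
          simp only [i, Fin.sum_univ_two, Matrix.cons_val_zero, Matrix.cons_val_one, zero_add] at h6
          exact absurd (by rw [h7, h8.1, h8.2, show e' = 1 from Fin.ext h6]) hne
        · intro h4
          exfalso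
          apply h4
          rw [Finset.mem_filter]
          refine ⟨Finset.mem_univ _, ⟨(hα0 _).2 rfl, (hk0 _).2 ⟨rfl, rfl⟩⟩, ?_⟩
          simp [i, Fin.sum_univ_two]
      have hall : ∀ (a b : Fin (N + 1)) (c : Fin 3) (q : Fin (n + 1)), μ' (q, a, b, c) = 0 := by
        intro a b c q
        have hz : S a b c = 0 → μ' (q, a, b, c) = 0 := by
          intro h3
          have h4 := lin lam hlam h0 (fun k => μ' (k, a, b, c)) 0 (by rw [Int.cast_zero]; exact h3)
          by_cases hq : q = 0
          · rw [hq]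
            exact h4.1
          · exact h4.2 q hq
        by_cases hab : a ≠ 0 ∨ b ≠ 0
        · obtain ⟨h3, h4⟩ := htwo a b hab
          fin_cases c
          · exact hz h4
          · exact hz (hone a b)
          · exact hz h3
        · push Not at hab
          obtain ⟨rfl, rfl⟩ := hab
          fin_cases c
          · exact hbad _ ⟨rfl, rfl, Or.inl rfl⟩
          · exact hz (hone 0 0)
          · have h4 := lin lam hlam h0 (fun k => μ' (k, 0, 0, 2)) r hlast
            by_cases hq : q = 0
            · rw [hq]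
              exact hbad _ ⟨rfl, rfl, Or.inr ⟨rfl, rfl⟩⟩
            · exact h4.2 q hq
      funext y
      rw [← hμ' y]
      exact hall _ _ _ _)
    (fun j => if j = 1 then Complex.slitPlane else univ)
    (by
      intro j
      by_cases hj : j = 1
      · rw [if_pos hj]; exact Q23.MV.slit_dom.1
      · rw [if_neg hj]; exact isPreconnected_univ)
    (by
      intro j
      by_cases hj : j = 1
      · rw [if_pos hj]; exact Q23.MV.slit_dom.2.1
      · rw [if_neg hj]; exact isOpen_univ)
    (by
      intro j t ht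
      by_cases hj : j = 1
      · rw [if_pos hj]; exact Q23.MV.slit_dom.2.2 t ht
      · rw [if_neg hj]; exact mem_univ _)
    (by
      intro l j hl
      by_cases hj : j = 1
      · rw [if_pos hj]
      · exfalso
        apply hl
        have : j = 0 := by omega
        rw [this]
        simp [i])
    L hL (fun x hx j _ => by
      change x j ∈ if j = 1 then Complex.slitPlane else univ
      by_cases hj : j = 1
      · rw [if_pos hj, hj]; exact hLU hx
      · rw [if_neg hj]; exact mem_univ _) m g d A ε hε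
  obtain ⟨D, C, T₀, H⟩ := H
  refine ⟨D, C, T₀, fun F _ _ hF ι ξ T hT => ?_⟩
  obtain ⟨Φ, h1, h2, h3⟩ := H F hF ι ξ T hT
  refine ⟨Φ, h1, h2, fun x hx hq hΦ P hP hd hc => ?_⟩
  have h4 := h3 x hx hq hΦ P hP hd hc
  have h5 : (fun y : Idx n N => fn lam N y (fun j => ι (x j))) = fun y =>
      Q23.MV.fL α k i (fun y l => cc lam N y.1 l) y (fun j => ι (x j)) := by
    funext y
    have hz0 : (fun j => ι (x j)) 1 ≠ 0 := Complex.slitPlane_ne_zero (hLU hx)
    have hlog : Complex.log (Real.pi * ι (x 1)) = Real.log Real.pi + Complex.log (ι (x 1)) :=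
      Complex.log_ofReal_mul hpi hz0
    obtain ⟨⟨q, a, b, c⟩, hy⟩ := y
    simp only [fn, Q23.MV.fL]
    congr 1
    rw [Fintype.sum_prod_type, Finset.sum_eq_single a]
    · rw [Fintype.sum_prod_type, Finset.sum_eq_single b]
      · rw [Fintype.sum_prod_type]
        simp only [Fin.sum_univ_two, Fin.prod_univ_two, cc, if_true, true_and, α, k, i, Matrix.cons_val_zero,
          Matrix.cons_val_one, Complex.ofReal_zero, zero_mul, add_zero, Fin.val_zero, Fin.val_one, pow_zero, pow_one,
          one_mul, mul_one]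
        rw [← Complex.exp_nat_mul, mul_pow]
        fin_cases c
        · simp [w]
          ring
        · simp [w]
          ring
        · simp [w]
          rw [hlog]
          ring
      · intro b' _ hb
        refine Finset.sum_eq_zero fun l _ => ?_
        rw [cc, if_neg (fun h6 => hb h6.2.symm), Complex.ofReal_zero, zero_mul]
      · intro h6
        exact absurd (Finset.mem_univ _) h6
    · intro a' _ ha
      refine Finset.sum_eq_zero fun l _ => ?_
      rw [cc, if_neg (fun h6 => ha h6.1.symm), Complex.ofReal_zero, zero_mul]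
    · intro h6
      exact absurd (Finset.mem_univ _) h6
  rw [h5]
  exact h4

/-- Let `λ_0 = 1, λ_1, …, λ_n` be real numbers linearly independent over `ℚ` (for example `1, √2`) and let `N` be any natural
number. For pairs `(q, r)` of algebraic numbers, `r` not negative real, put `x = e^q`, `y = π r`. Then there are few
relations (i) between the numbers `e^(λ_k M)` (`M ≠ 1`), `x^(λ_k M)`, `y^(λ_k M)` (`(λ_k, M) ≠ (1, 1)`), where
`M = x^i y^j`, `0 ≤ i, j ≤ N`, even with arbitrary constants in the coefficients, and (ii) between these numbers and `y`,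
with integer coefficients from the number field. -/
theorem result : ∀ (n N : ℕ) (lam : Fin (n + 1) → ℝ), LinearIndependent ℚ lam → lam 0 = 1 →
    FewRelations dom (fn lam N) ∧ FewRelationsWith dom Real.pi 1 (fn lam N) := by
  classical
  intro n N lam hlam h0
  have h1 := main lam hlam h0 N
  refine ⟨h1, fun L hL hLU m d A ε hε => ?_⟩
  exact Q23.MV.few_lin (fn lam N) L 1 (fun x hx => Complex.slitPlane_ne_zero (hLU hx)) Real.pi
    H340R2.LW.transcendental_pi_complex m d A ε (h1 L hL hLU m (d + 1) d (A + d) ε hε)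

end Pool.Agent.Results.MP_a2f59b_nt.JointFamilies
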