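import Mathlib
import Pool.Agent.Q29.MixFam
import Pool.Agent.TH456.TM.Near

/-!
# `π + e`, `π - e`, `π e`, `π / e` and near algebraic relations between `π` and `e`

Let `z = e` or `z = π`, and let `t` be any real number (for instance the other one of `e`, `π`).

(1) Consider finitely many different numbers of the form `t + r z`, `r` a nonzero integer, and `t z ^ k`, `k` an integer. If
`t` is not algebraic over `ℚ(z)` all of them are transcendental, and in any case at most one of them is algebraic if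
none of them is zero. We give the quantitative form of this: for all `D` there is an exponent `κ`, which does not depend on
`t`, such that for any two of the numbers, `u` and `v`, and for all nonzero integer polynomials `P`, `Q` of degree at most `D`
and height at most `H` one of the numbers `|P(u)|`, `|Q(v)|` is at least `C H ^ (-κ)`, and such that the irreducible `P` for
which `|P(u)| ≤ height(P) ^ (-w)`, `w > κ`, for some number `u` of the family, are sparse: at most
`log log X / log ρ + O(1)` of them have height at most `X`, for all `1 < ρ < w / κ`. In particular, at each scale `H` at least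
three of the four numbers `π + e`, `π - e`, `π e`, `π / e` are far from all algebraic numbers of degree at most `D` and height
at most `H`.

(2) The same for the polynomial relations between `z` and `t`: for two different irreducible integer polynomials `P`, `Q` in two
variables (with positive leading coefficients), of degree at most `D` in each variable and of height at most `H`, one of the
numbers `|P(z, t)|`, `|Q(z, t)|` is at least `C H ^ (-κ)`, where `C` depends only on `D` and on a bound for `|t|`, and near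
relations are sparse. So if `π` and `e` satisfy an algebraic relation, for instance if one of the four numbers of (1) is
algebraic, then the values at `(e, π)` of all other irreducible polynomials `P` of degree at most `D` are at
least `C height(P) ^ (-κ)`.

The proof is in `Pool/Agent/Q29/Mix.lean`, `MixFam.lean` (the mixed pairs `t + r z`, `t z ^ k`) and in the starting files
`Pool/Agent/TH456/TM/` (the pair lemma and the families `t + r z` and `t z ^ k`).
-/

set_option autoImplicit false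

namespace Pool.Agent.Results.MP_a2f59b_nt.NearAlgebraic

open Polynomial

/-- the numbers `t + r z` and `t z ^ k` -/
noncomputable def num (z t : ℝ) : ℤ ⊕ ℤ → ℝ
  | Sum.inl r => t + r * z
  | Sum.inr k => t * z ^ k

/-- the largest absolute value of a coefficient of `P` -/
noncomputable def height (P : ℤ[X]) : ℕ := P.support.sup fun i => (P.coeff i).natAbs

/-- The finite family `v` of numbers is **separated** in degree `D` with the exponent `κ`:
(1) for some `C > 0`, all `i ≠ j` and all nonzero integer polynomials `P`, `Q` of degree at most `D` and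
height at most `H`, one of the numbers `|P(v i)|`, `|Q(v j)|` is at least `C H ^ (-κ)`;
(2) for `1 < ρ < w / κ` the pairs `(i, P)`, `P` an irreducible integer polynomial of degree at most `D`
with a positive leading coefficient, such that `|P(v i)| ≤ height(P) ^ (-w)` are sparse: at most
`log (log X) / log ρ + C` of them have height at most `X`. -/
def Separated {ι : Type} (v : ι → ℝ) (D : ℕ) (κ : ℝ) : Prop :=
  (∃ C : ℝ, 0 < C ∧ ∀ i j, i ≠ j → ∀ P Q : ℤ[X], P ≠ 0 → Q ≠ 0 → P.natDegree ≤ D →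
    Q.natDegree ≤ D → ∀ H : ℝ, (height P : ℝ) ≤ H → (height Q : ℝ) ≤ H →
    C * H ^ (-κ) ≤ max |aeval (v i) P| |aeval (v j) Q|) ∧
  ∀ w ρ : ℝ, 1 < ρ → ρ < w / κ → ∃ C : ℝ, ∀ X : ℝ, 3 ≤ X →
    {p : ι × ℤ[X] | Irreducible p.2 ∧ p.2.natDegree ≤ D ∧ 0 < p.2.leadingCoeff ∧
      (height p.2 : ℝ) ≤ X ∧ |aeval (v p.1) p.2| ≤ (height p.2 : ℝ) ^ (-w)}.Finite ∧
    ({p : ι × ℤ[X] | Irreducible p.2 ∧ p.2.natDegree ≤ D ∧ 0 < p.2.leadingCoeff ∧
      (height p.2 : ℝ) ≤ X ∧ |aeval (v p.1) p.2| ≤ (height p.2 : ℝ) ^ (-w)}.ncard : ℝ) ≤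
        Real.log (Real.log X) / Real.log ρ + C

/-- the value `P(z, t)` of a polynomial in two variables, the inner variable is `z` -/
noncomputable def val (z t : ℝ) (P : ℤ[X][X]) : ℝ := eval₂ (aeval z : ℤ[X] →ₐ[ℤ] ℝ).toRingHom t P

/-- the largest absolute value of a coefficient of a polynomial in two variables -/
noncomputable def height₂ (P : ℤ[X][X]) : ℕ :=
  P.support.sup fun j => (P.coeff j).support.sup fun i => ((P.coeff j).coeff i).natAbs

/-- the irreducible integer polynomials in two variables, of degree at most `D` in each variable, with a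
positive leading coefficient -/
def Irr (D : ℕ) : Set ℤ[X][X] :=
  {P | Irreducible P ∧ P.natDegree ≤ D ∧ (∀ j, (P.coeff j).natDegree ≤ D) ∧
    0 < P.leadingCoeff.leadingCoeff}

open Pool.Agent.TH456.TM in
/-- passage from the statements of the library -/
theorem separated_of {ι : Type} [Fintype ι] (v : ι → ℝ) (D : ℕ) (κ : ℝ) (hκ : 0 < κ)
    (h : ∃ C : ℝ, 0 < C ∧
      (∀ i j, i ≠ j → ∀ P Q : ℤ[X], P ≠ 0 → Q ≠ 0 → P.natDegree ≤ D →
        Q.natDegree ≤ D → ∀ H : ℝ, (ht P : ℝ) ≤ H → (ht Q : ℝ) ≤ H →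
        C * H ^ (-κ) ≤ max ‖aeval (v i : ℂ) P‖ ‖aeval (v j : ℂ) Q‖) ∧
      (∀ i, ∀ P ∈ I1 D, ∀ Q ∈ I1 D, P ≠ Q → ∀ H : ℝ, (ht P : ℝ) ≤ H → (ht Q : ℝ) ≤ H →
        C * H ^ (-κ) ≤ max ‖aeval (v i : ℂ) P‖ ‖aeval (v i : ℂ) Q‖)) : Separated v D κ := by
  obtain ⟨C, hC, h1, h2⟩ := h
  refine ⟨⟨C, hC, ?_⟩, ?_⟩
  · intro i j hij P Q hP hQ hPD hQD H hPH hQH
    have h3 := h1 i j hij P Q hP hQ hPD hQD H hPH hQH
    rwa [← abs_aeval, ← abs_aeval] at h3
  · intro w ρ hρ hρw
    obtain ⟨C', hC'⟩ := sparse_fam (Finset.univ : Finset ι) (fun i => (v i : ℂ)) D κ hκ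
      ⟨C, hC, fun i _ j _ P hP Q hQ hne H hPH hQH => by
        by_cases hij : i = j
        · subst hij
          exact h2 i P hP Q hQ (fun e => hne (by rw [e])) H hPH hQH
        · exact h1 i j hij P Q hP.1.ne_zero hQ.1.ne_zero hP.2.1 hQ.2.1 H hPH hQH⟩ w ρ hρ hρw
    refine ⟨C', fun X hX => ?_⟩
    have e : {p : ι × ℤ[X] | Irreducible p.2 ∧ p.2.natDegree ≤ D ∧ 0 < p.2.leadingCoeff ∧
        (height p.2 : ℝ) ≤ X ∧ |aeval (v p.1) p.2| ≤ (height p.2 : ℝ) ^ (-w)} =
        {p ∈ NearF (Finset.univ : Finset ι) (fun i => (v i : ℂ)) D w | (ht p.2 : ℝ) ≤ X} := by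
      ext ⟨i, P⟩
      constructor
      · rintro ⟨a, b, c, d, e⟩
        refine ⟨⟨Finset.mem_univ _, ⟨a, b, c⟩, ?_⟩, d⟩
        show ‖aeval (v i : ℂ) P‖ ≤ (ht P : ℝ) ^ (-w)
        rw [← abs_aeval]
        exact e
      · rintro ⟨⟨-, ⟨a, b, c⟩, e⟩, d⟩
        refine ⟨a, b, c, d, ?_⟩
        have e' : ‖aeval (v i : ℂ) P‖ ≤ (ht P : ℝ) ^ (-w) := e
        rw [← abs_aeval] at e'
        exact e'
    rw [e]
    exact hC' X hX

theorem num_coe (z t : ℝ) (i : ℤ ⊕ ℤ) : ((num z t i : ℝ) : ℂ) = Pool.Agent.Q29.Mix.numC z t i := by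
  rcases i with r | k
  · simp [num, Pool.Agent.Q29.Mix.numC]
  · simp [num, Pool.Agent.Q29.Mix.numC]

theorem val_coe (z t : ℝ) (P : ℤ[X][X]) : ((val z t P : ℝ) : ℂ) = Pool.Agent.TH456.TM.vl z t P := by
  unfold val Pool.Agent.TH456.TM.vl
  rw [eval_map, ← Complex.ofRealHom_eq_coe, hom_eval₂]
  congr 1
  refine Polynomial.ringHom_ext (fun n => ?_) ?_
  · simp [Pool.Agent.TH456.TM.σx]
  · simp [Pool.Agent.TH456.TM.σx]

theorem abs_val (z t : ℝ) (P : ℤ[X][X]) : |val z t P| = ‖Pool.Agent.TH456.TM.vl (z : ℂ) (t : ℂ) P‖ := by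
  rw [← val_coe, Complex.norm_real, Real.norm_eq_abs]

theorem num_ne (r : ℤ) : Real.pi + r * Real.exp 1 ≠ 0 := by
  have h1 := Real.pi_gt_d2
  have h2 := Real.pi_lt_d2
  have h3 := Real.exp_one_gt_d9
  have h4 := Real.exp_one_lt_d9
  rcases lt_or_ge r (-1) with h | h
  · have h5 : (r : ℝ) ≤ -2 := by exact_mod_cast (show r ≤ -2 by omega)
    nlinarith
  · have h5 : (-1 : ℝ) ≤ r := by exact_mod_cast h
    nlinarith

theorem num_ne' (r : ℤ) : Real.exp 1 + r * Real.pi ≠ 0 := by
  have h1 := Real.pi_gt_d2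
  have h3 := Real.exp_one_gt_d9
  have h4 := Real.exp_one_lt_d9
  rcases lt_or_ge r 0 with h | h
  · have h5 : (r : ℝ) ≤ -1 := by exact_mod_cast (show r ≤ -1 by omega)
    nlinarith
  · have h5 : (0 : ℝ) ≤ r := by exact_mod_cast h
    nlinarith

/-- **The family and the near relations**, see the text at the beginning of the file. -/
theorem result :
    ((∀ i, num (Real.exp 1) Real.pi i ≠ 0) ∧ (∀ i, num Real.pi (Real.exp 1) i ≠ 0)) ∧
    (∀ z : ℝ, z = Real.exp 1 ∨ z = Real.pi →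
      (∀ (F : Finset (ℤ ⊕ ℤ)) (D : ℕ), Sum.inl 0 ∉ F → ∃ κ : ℝ, 0 < κ ∧
        ∀ t : ℝ, (∀ i ∈ F, num z t i ≠ 0) → Separated (fun i : F => num z t i) D κ) ∧
      (∀ D : ℕ, 1 ≤ D → ∃ κ : ℝ, 0 < κ ∧
        (∀ T : ℝ, ∃ C : ℝ, 0 < C ∧ ∀ t : ℝ, |t| ≤ T → ∀ P ∈ Irr D, ∀ Q ∈ Irr D, P ≠ Q → ∀ H : ℝ,
          (height₂ P : ℝ) ≤ H → (height₂ Q : ℝ) ≤ H → C * H ^ (-κ) ≤ max |val z t P| |val z t Q|) ∧
        (∀ t w ρ : ℝ, 1 < ρ → ρ < w / κ → ∃ C : ℝ, ∀ X : ℝ, 3 ≤ X →
          {P ∈ Irr D | |val z t P| ≤ (height₂ P : ℝ) ^ (-w) ∧ (height₂ P : ℝ) ≤ X}.Finite ∧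
          ({P ∈ Irr D | |val z t P| ≤ (height₂ P : ℝ) ^ (-w) ∧ (height₂ P : ℝ) ≤ X}.ncard : ℝ) ≤
            Real.log (Real.log X) / Real.log ρ + C))) := by
  have he0 : Real.exp 1 ≠ 0 := (Real.exp_pos 1).ne'
  refine ⟨⟨fun i => ?_, fun i => ?_⟩, fun z hz => ?_⟩
  · rcases i with r | k
    · exact num_ne r
    · exact mul_ne_zero Real.pi_ne_zero (zpow_ne_zero _ he0)
  · rcases i with r | k
    · exact num_ne' r
    · exact mul_ne_zero he0 (zpow_ne_zero _ Real.pi_ne_zero)
  have hm : Pool.Agent.TH456.TM.MeasT (z : ℂ) := by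
    rcases hz with rfl | rfl
    · exact Pool.Agent.TH456.TM.measT_e
    · exact Pool.Agent.TH456.TM.measT_pi
  refine ⟨fun F D hF => ?_, fun D hD => ?_⟩
  · obtain ⟨κ, hκ, h⟩ := Pool.Agent.Q29.Mix.fam_mix z hm F hF D
    refine ⟨κ, hκ, fun t ht => ?_⟩
    obtain ⟨C, hC, h1, h2⟩ := h t (fun i hi => by
      rw [← num_coe]
      exact_mod_cast ht i hi)
    refine separated_of _ D κ hκ ⟨C, hC, ?_, ?_⟩
    · intro i j hij P Q hP hQ hPD hQD H hPH hQH
      rw [num_coe, num_coe]
      exact h1 i j hij P Q hP hQ hPD hQD H hPH hQH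
    · intro i P hP Q hQ hne H hPH hQH
      rw [num_coe]
      exact h2 i P hP Q hQ hne H hPH hQH
  · obtain ⟨κ, hκ, h⟩ := Pool.Agent.TH456.TM.core z hm D hD
    refine ⟨κ, hκ, fun T => ?_, fun t w ρ hρ hρw => ?_⟩
    · obtain ⟨C, hC, h⟩ := h T
      refine ⟨C, hC, fun t ht P hP Q hQ hne H hPH hQH => ?_⟩
      rw [abs_val, abs_val]
      exact h t (by rw [Complex.norm_real, Real.norm_eq_abs]; exact ht) P hP Q hQ hne H hPH hQH
    · obtain ⟨C, hC⟩ := Pool.Agent.TH456.TM.sparse_alg z D κ hκ h t w ρ hρ hρw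
      refine ⟨C, fun X hX => ?_⟩
      have e : {P ∈ Irr D | |val z t P| ≤ (height₂ P : ℝ) ^ (-w) ∧ (height₂ P : ℝ) ≤ X} =
          {P ∈ {P : ℤ[X][X] | P ∈ Pool.Agent.TH456.TM.IR D ∧ ‖Pool.Agent.TH456.TM.vl z t P‖ ≤
            (Pool.Agent.TH456.TM.hgt P : ℝ) ^ (-w)} | (Pool.Agent.TH456.TM.hgt P : ℝ) ≤ X} := by
        ext P
        constructor
        · rintro ⟨a, b, c⟩
          refine ⟨⟨a, ?_⟩, c⟩
          rw [← abs_val]
          exact b
        · rintro ⟨⟨a, b⟩, c⟩
          refine ⟨a, ?_, c⟩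
          rw [abs_val]
          exact b
      rw [e]
      exact hC X hX

end Pool.Agent.Results.MP_a2f59b_nt.NearAlgebraic
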